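import Pool.Agent.V5helper23.PF.Stm2

/-! # PROJECT PF, job CMP: composition with an orthogonal map -/

set_option autoImplicit false

open MeasureTheory Set Real Filter Topology
open scoped ENNReal

namespace Pool.Agent.V5helper76.PF

open Pool.Agent.V5helper23.PF

/-- directional derivatives of a jointly continuous function are measurable -/
lemma meas_dir {D : Set (ℝ × ℝ)} (hD : IsOpen D) {T : ℝ} {v g : ℝ → ℝ × ℝ → ℝ} (e : ℝ × ℝ)
    (hc : ContinuousOn (fun q : ℝ × ℝ × ℝ => v q.1 q.2) (Ioo 0 T ×ˢ D))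
    (hg : ∀ t ∈ Ioo 0 T, ∀ p ∈ D, HasDerivAt (fun s : ℝ => v t (p + s • e)) (g t p) 0) :
    AEMeasurable (fun q : ℝ × ℝ × ℝ => g q.1 q.2) (volume.restrict (Ioo 0 T ×ˢ D)) := by
  classical
  have hS : MeasurableSet (Ioo (0 : ℝ) T ×ˢ D) := measurableSet_Ioo.prod hD.measurableSet
  set V : ℝ × ℝ × ℝ → ℝ := (Ioo (0 : ℝ) T ×ˢ D).piecewise (fun q => v q.1 q.2) (fun _ => 0) with hV
  have hVm : Measurable V := hc.measurable_piecewise continuousOn_const hS
  refine aemeasurable_of_tendsto_metrizable_ae atTop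
    (f := fun (n : ℕ) (q : ℝ × ℝ × ℝ) =>
      ((n : ℝ) + 1) * (V (q.1, q.2 + ((n : ℝ) + 1)⁻¹ • e) - V q)) (fun n => ?_) ?_
  · refine Measurable.aemeasurable ?_
    have hm : Measurable (fun q : ℝ × ℝ × ℝ => ((q.1, q.2 + ((n : ℝ) + 1)⁻¹ • e) : ℝ × ℝ × ℝ)) :=
      measurable_fst.prodMk (measurable_snd.add_const _)
    exact Measurable.const_mul (Measurable.sub (hVm.comp hm) hVm) _
  · rw [ae_restrict_iff' hS]
    refine Eventually.of_forall fun q hq => ?_
    have h1 := hg q.1 hq.1 q.2 hq.2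
    have h2 := h1.tendsto_slope_zero
    have h30 : Tendsto (fun n : ℕ => ((n : ℝ) + 1)⁻¹) atTop (𝓝 0) := by
      simpa using tendsto_one_div_add_atTop_nhds_zero_nat (𝕜 := ℝ)
    have h3 : Tendsto (fun n : ℕ => ((n : ℝ) + 1)⁻¹) atTop (𝓝[≠] 0) := by
      refine tendsto_nhdsWithin_iff.2 ⟨h30, Eventually.of_forall fun n => ?_⟩
      have : (0 : ℝ) < ((n : ℝ) + 1)⁻¹ := by positivity
      exact this.ne'
    have h4 := h2.comp h3
    refine h4.congr' ?_
    have h5 : Tendsto (fun n : ℕ => q.2 + ((n : ℝ) + 1)⁻¹ • e) atTop (𝓝 (q.2 + (0 : ℝ) • e)) :=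
      (h30.smul_const e).const_add q.2
    rw [zero_smul, add_zero] at h5
    filter_upwards [h5.eventually (hD.mem_nhds hq.2)] with n hn
    have h6 : V (q.1, q.2 + ((n : ℝ) + 1)⁻¹ • e) = v q.1 (q.2 + ((n : ℝ) + 1)⁻¹ • e) := by
      rw [hV]; exact Set.piecewise_eq_of_mem _ _ _ ⟨hq.1, hn⟩
    have h7 : V q = v q.1 q.2 := by rw [hV]; exact Set.piecewise_eq_of_mem _ _ _ hq
    simp only [Function.comp_apply, h6, h7, zero_add, zero_smul, add_zero, inv_inv, smul_eq_mul]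

lemma hasDeriv_dir {f : ℝ × ℝ → ℝ} {a b : ℝ} {p : ℝ × ℝ} (e : ℝ × ℝ)
    (hf : HasFDerivAt f (a • ContinuousLinearMap.fst ℝ ℝ ℝ +
      b • ContinuousLinearMap.snd ℝ ℝ ℝ) p) :
    HasDerivAt (fun s : ℝ => f (p + s • e)) (a * e.1 + b * e.2) 0 := by
  have h1 : HasDerivAt (fun s : ℝ => p + s • e) e 0 := by
    have := ((hasDerivAt_id (0 : ℝ)).smul_const e).const_add p
    simpa using this
  have h2 : HasFDerivAt f (a • ContinuousLinearMap.fst ℝ ℝ ℝ +
      b • ContinuousLinearMap.snd ℝ ℝ ℝ) (p + (0 : ℝ) • e) := by simpa using hf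
  have h3 := h2.comp_hasDerivAt (0 : ℝ) h1
  simpa [Function.comp_def] using h3

/-- the derivatives of a profile are measurable -/
lemma prof_meas {D : Set (ℝ × ℝ)} (hD : IsOpen D) {T : ℝ} {F : ℝ × ℝ → ℝ}
    {v vx vy vxx vxy vyy : ℝ → ℝ × ℝ → ℝ} (h : HProf D T F v vx vy vxx vxy vyy) :
    AEMeasurable (fun q : ℝ × ℝ × ℝ => vx q.1 q.2) (volume.restrict (Ioo 0 T ×ˢ D)) ∧
    AEMeasurable (fun q : ℝ × ℝ × ℝ => vy q.1 q.2) (volume.restrict (Ioo 0 T ×ˢ D)) := by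
  have hc : ContinuousOn (fun q : ℝ × ℝ × ℝ => v q.1 q.2) (Ioo 0 T ×ˢ D) :=
    h.cont.mono (prod_mono Ioo_subset_Ioc_self subset_closure)
  constructor
  · refine meas_dir hD (1, 0) hc fun t ht p hp => ?_
    have := hasDeriv_dir (1, 0) (h.d1 t (Ioo_subset_Ioc_self ht) p hp)
    simpa using this
  · refine meas_dir hD (0, 1) hc fun t ht p hp => ?_
    have := hasDeriv_dir (0, 1) (h.d1 t (Ioo_subset_Ioc_self ht) p hp)
    simpa using this

/-- squares of linear combinations of the derivatives are integrable -/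
lemma prof_int {D : Set (ℝ × ℝ)} (hD : IsOpen D) {T : ℝ} {F : ℝ × ℝ → ℝ}
    {v vx vy vxx vxy vyy : ℝ → ℝ × ℝ → ℝ} (h : HProf D T F v vx vy vxx vxy vyy) (a b : ℝ) :
    IntegrableOn (fun q : ℝ × ℝ × ℝ => (a * vx q.1 q.2 + b * vy q.1 q.2) ^ 2)
      (Ioo 0 T ×ˢ D) := by
  obtain ⟨hx, hy⟩ := prof_meas hD h
  refine Integrable.mono' (g := fun q : ℝ × ℝ × ℝ => 2 * a ^ 2 * (vx q.1 q.2 ^ 2) +
    2 * b ^ 2 * (vy q.1 q.2 ^ 2)) ((h.ex.integrable.const_mul _).add (h.ey.integrable.const_mul _))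
    (((hx.const_mul a).add (hy.const_mul b)).pow_const 2).aestronglyMeasurable
    (Eventually.of_forall fun q => ?_)
  rw [Real.norm_of_nonneg (sq_nonneg _)]
  nlinarith [sq_nonneg (a * vx q.1 q.2 - b * vy q.1 q.2)]

/-- the linear map -/
def Lm (α β γ δ : ℝ) (p : ℝ × ℝ) : ℝ × ℝ := (α * p.1 + β * p.2, γ * p.1 + δ * p.2)

lemma Lm_cont (α β γ δ : ℝ) : Continuous (Lm α β γ δ) := by unfold Lm; fun_prop

lemma Lm_deriv (α β γ δ : ℝ) (p : ℝ × ℝ) : HasFDerivAt (Lm α β γ δ)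
    ((α • ContinuousLinearMap.fst ℝ ℝ ℝ + β • ContinuousLinearMap.snd ℝ ℝ ℝ).prod
      (γ • ContinuousLinearMap.fst ℝ ℝ ℝ + δ • ContinuousLinearMap.snd ℝ ℝ ℝ)) p := by
  have h : Lm α β γ δ =
      ⇑((α • ContinuousLinearMap.fst ℝ ℝ ℝ + β • ContinuousLinearMap.snd ℝ ℝ ℝ).prod
      (γ • ContinuousLinearMap.fst ℝ ℝ ℝ + δ • ContinuousLinearMap.snd ℝ ℝ ℝ)) := by
    funext p
    simp [Lm]
  rw [h]
  exact ContinuousLinearMap.hasFDerivAt _

lemma chain (α β γ δ : ℝ) {f : ℝ × ℝ → ℝ} {a b : ℝ} {p : ℝ × ℝ}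
    (hf : HasFDerivAt f (a • ContinuousLinearMap.fst ℝ ℝ ℝ +
      b • ContinuousLinearMap.snd ℝ ℝ ℝ) (Lm α β γ δ p)) :
    HasFDerivAt (fun p => f (Lm α β γ δ p)) ((α * a + γ * b) • ContinuousLinearMap.fst ℝ ℝ ℝ +
      (β * a + δ * b) • ContinuousLinearMap.snd ℝ ℝ ℝ) p := by
  have h := hf.comp p (Lm_deriv α β γ δ p)
  refine h.congr_fderiv ?_
  refine ContinuousLinearMap.ext fun x => ?_
  simp
  ring

lemma Lm_mp {α β γ δ : ℝ} (h : (α * δ - β * γ) ^ 2 = 1) :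
    MeasurePreserving (Lm α β γ δ) volume volume := by
  refine ⟨(Lm_cont _ _ _ _).measurable, ?_⟩
  have h1 : Lm α β γ δ = ⇑(Matrix.toLin (Module.Basis.finTwoProd ℝ) (Module.Basis.finTwoProd ℝ)
      !![α, β; γ, δ]) := by
    funext p
    simp [Lm, Matrix.toLin_finTwoProd_apply]
  have hdet : LinearMap.det (Matrix.toLin (Module.Basis.finTwoProd ℝ)
      (Module.Basis.finTwoProd ℝ) !![α, β; γ, δ]) = α * δ - β * γ := by
    rw [LinearMap.det_toLin, Matrix.det_fin_two_of]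
  have h2 : α * δ - β * γ = 1 ∨ α * δ - β * γ = -1 := by
    rw [pow_two] at h
    exact mul_self_eq_one_iff.1 h
  have h0 : α * δ - β * γ ≠ 0 := by rcases h2 with h2 | h2 <;> rw [h2] <;> norm_num
  rw [h1, Measure.map_linearMap_addHaar_eq_smul_addHaar volume (by rw [hdet]; exact h0), hdet]
  rcases h2 with h2 | h2 <;> rw [h2] <;> simp

theorem t_CMP : S_CMP := by
  intro R T α β γ δ F v hR hT h1 h2 h3 h4 h5 h6 hHP
  obtain ⟨vx, vy, vxx, vxy, vyy, h⟩ := hHP
  obtain ⟨L, hL⟩ : ∃ L, L = Lm α β γ δ := ⟨_, rfl⟩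
  have hLa : ∀ p : ℝ × ℝ, (α * p.1 + β * p.2, γ * p.1 + δ * p.2) = L p := fun p => by
    rw [hL]; rfl
  simp only [hLa]
  have hD : IsOpen (disc R) := isOpen_lt (by fun_prop) (by fun_prop)
  have hdet : (α * δ - β * γ) ^ 2 = 1 := by
    have : (α * δ - β * γ) ^ 2 = (α ^ 2 + β ^ 2) * (γ ^ 2 + δ ^ 2) - (α * γ + β * δ) ^ 2 := by ring
    rw [this, h1, h2, h3]; ring
  have hn : ∀ p, (L p).1 ^ 2 + (L p).2 ^ 2 = p.1 ^ 2 + p.2 ^ 2 := by
    intro p
    have : (L p).1 ^ 2 + (L p).2 ^ 2 = (α ^ 2 + γ ^ 2) * p.1 ^ 2 +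
        2 * (α * β + γ * δ) * (p.1 * p.2) + (β ^ 2 + δ ^ 2) * p.2 ^ 2 := by
      simp only [hL, Lm]; ring
    rw [this, h4, h5, h6]; ring
  have hLD : ∀ p, L p ∈ disc R ↔ p ∈ disc R := by
    intro p
    show (L p).1 ^ 2 + (L p).2 ^ 2 < R ^ 2 ↔ p.1 ^ 2 + p.2 ^ 2 < R ^ 2
    rw [hn]
  have hLc : Continuous L := by rw [hL]; exact Lm_cont _ _ _ _
  have hLcl : ∀ p ∈ closure (disc R), L p ∈ closure (disc R) := fun p hp =>
    map_mem_closure hLc hp fun q hq => (hLD q).2 hq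
  have hinj : Function.Injective L := by
    intro p q hpq
    have e1 : ∀ p, α * (L p).1 + γ * (L p).2 = p.1 := by
      intro p
      have : α * (L p).1 + γ * (L p).2 = (α ^ 2 + γ ^ 2) * p.1 + (α * β + γ * δ) * p.2 := by
        simp only [hL, Lm]; ring
      rw [this, h4, h6]; ring
    have e2 : ∀ p, β * (L p).1 + δ * (L p).2 = p.2 := by
      intro p
      have : β * (L p).1 + δ * (L p).2 = (α * β + γ * δ) * p.1 + (β ^ 2 + δ ^ 2) * p.2 := by
        simp only [hL, Lm]; ring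
      rw [this, h5, h6]; ring
    refine Prod.ext ?_ ?_
    · rw [← e1 p, ← e1 q, hpq]
    · rw [← e2 p, ← e2 q, hpq]
  have hemb : MeasurableEmbedding L := hLc.measurableEmbedding hinj
  have hmp : MeasurePreserving L volume volume := by rw [hL]; exact Lm_mp hdet
  have hpre : L ⁻¹' disc R = disc R := by ext p; exact hLD p
  have hmp' : MeasurePreserving L (volume.restrict (disc R)) (volume.restrict (disc R)) := by
    have := hmp.restrict_preimage hD.measurableSet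
    rwa [hpre] at this
  have hS : MeasurableSet (Ioo (0 : ℝ) T ×ˢ disc R) := measurableSet_Ioo.prod hD.measurableSet
  have hΛ : MeasurePreserving (Prod.map id L : ℝ × ℝ × ℝ → ℝ × ℝ × ℝ) volume volume :=
    (MeasurePreserving.id volume).prod hmp
  have hpreΛ : (Prod.map id L : ℝ × ℝ × ℝ → ℝ × ℝ × ℝ) ⁻¹' (Ioo (0 : ℝ) T ×ˢ disc R) =
      Ioo (0 : ℝ) T ×ˢ disc R := by
    ext q
    constructor
    · rintro ⟨ha, hb⟩
      exact ⟨ha, (hLD q.2).1 hb⟩
    · rintro ⟨ha, hb⟩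
      exact ⟨ha, (hLD q.2).2 hb⟩
  have hΛ' : MeasurePreserving (Prod.map id L : ℝ × ℝ × ℝ → ℝ × ℝ × ℝ)
      (volume.restrict (Ioo (0 : ℝ) T ×ˢ disc R)) (volume.restrict (Ioo (0 : ℝ) T ×ˢ disc R)) := by
    have := hΛ.restrict_preimage hS
    rwa [hpreΛ] at this
  have hint : ∀ a b : ℝ, IntegrableOn (fun q : ℝ × ℝ × ℝ =>
      (a * vx q.1 (L q.2) + b * vy q.1 (L q.2)) ^ 2) (Ioo 0 T ×ˢ disc R) := by
    intro a b
    have i1 := prof_int hD h a b
    exact (hΛ'.integrable_comp i1.aestronglyMeasurable).2 i1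
  have hA : ∀ t ∈ Ioc 0 T, ∀ p ∈ disc R, HasFDerivAt (fun p => vx t (L p))
      ((α * vxx t (L p) + γ * vxy t (L p)) • ContinuousLinearMap.fst ℝ ℝ ℝ +
      (β * vxx t (L p) + δ * vxy t (L p)) • ContinuousLinearMap.snd ℝ ℝ ℝ) p := by
    intro t ht p hp
    have := h.dx t ht (L p) ((hLD p).2 hp)
    rw [hL] at this ⊢
    exact chain α β γ δ this
  have hB : ∀ t ∈ Ioc 0 T, ∀ p ∈ disc R, HasFDerivAt (fun p => vy t (L p))
      ((α * vxy t (L p) + γ * vyy t (L p)) • ContinuousLinearMap.fst ℝ ℝ ℝ +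
      (β * vxy t (L p) + δ * vyy t (L p)) • ContinuousLinearMap.snd ℝ ℝ ℝ) p := by
    intro t ht p hp
    have := h.dy t ht (L p) ((hLD p).2 hp)
    rw [hL] at this ⊢
    exact chain α β γ δ this
  have hco : ∀ g : ℝ × ℝ → ℝ, ContinuousOn g (disc R) →
      ContinuousOn (fun p => g (L p)) (disc R) := fun g hg =>
    hg.comp hLc.continuousOn fun p hp => (hLD p).2 hp
  refine ⟨fun t p => α * vx t (L p) + γ * vy t (L p), fun t p => β * vx t (L p) + δ * vy t (L p),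
    fun t p => α ^ 2 * vxx t (L p) + 2 * α * γ * vxy t (L p) + γ ^ 2 * vyy t (L p),
    fun t p => α * β * vxx t (L p) + (α * δ + β * γ) * vxy t (L p) + γ * δ * vyy t (L p),
    fun t p => β ^ 2 * vxx t (L p) + 2 * β * δ * vxy t (L p) + δ ^ 2 * vyy t (L p), ?_⟩
  constructor
  case cont =>
    have hc : ContinuousOn (fun q : ℝ × ℝ × ℝ => ((q.1, L q.2) : ℝ × ℝ × ℝ))
        (Ioc 0 T ×ˢ closure (disc R)) :=
      (continuous_fst.prodMk (hLc.comp continuous_snd)).continuousOn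
    exact h.cont.comp hc fun q hq => ⟨hq.1, hLcl _ hq.2⟩
  case cxx =>
    intro t ht
    exact ((continuousOn_const.mul (hco _ (h.cxx t ht))).add
      (continuousOn_const.mul (hco _ (h.cxy t ht)))).add
      (continuousOn_const.mul (hco _ (h.cyy t ht)))
  case cxy =>
    intro t ht
    exact ((continuousOn_const.mul (hco _ (h.cxx t ht))).add
      (continuousOn_const.mul (hco _ (h.cxy t ht)))).add
      (continuousOn_const.mul (hco _ (h.cyy t ht)))
  case cyy =>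
    intro t ht
    exact ((continuousOn_const.mul (hco _ (h.cxx t ht))).add
      (continuousOn_const.mul (hco _ (h.cxy t ht)))).add
      (continuousOn_const.mul (hco _ (h.cyy t ht)))
  case d1 =>
    intro t ht p hp
    have := h.d1 t ht (L p) ((hLD p).2 hp)
    rw [hL] at this ⊢
    exact chain α β γ δ this
  case dx =>
    intro t ht p hp
    refine (((hA t ht p hp).const_mul α).add ((hB t ht p hp).const_mul γ)).congr_fderiv ?_
    refine ContinuousLinearMap.ext fun x => ?_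
    simp
    ring
  case dy =>
    intro t ht p hp
    refine (((hA t ht p hp).const_mul β).add ((hB t ht p hp).const_mul δ)).congr_fderiv ?_
    refine ContinuousLinearMap.ext fun x => ?_
    simp
    ring
  case dt =>
    intro t ht p hp
    have := h.dt t ht (L p) ((hLD p).2 hp)
    refine this.congr_deriv ?_
    linear_combination (-vxx t (L p)) * h1 + (-2 * vxy t (L p)) * h3 + (-vyy t (L p)) * h2
  case init =>
    refine h.init.congr fun t => ?_
    exact (hmp'.lintegral_comp_emb hemb (fun p => ENNReal.ofReal ((v t p - F p) ^ 2))).symm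
  case fin => exact fun p hp => h.fin (L p) (hLcl p hp)
  case ex => exact hint α γ
  case ey => exact hint β δ
  case meas => exact h.meas.comp_quasiMeasurePreserving hmp'.quasiMeasurePreserving

end Pool.Agent.V5helper76.PF
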